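import Pool.Agent.MT100GO.Stmts
import Pool.Agent.Helper19_MT100G.Hpl

/-! Module HPL of MT100GO: the half plane (even weight). -/

set_option autoImplicit false

namespace Pool.Agent.MT100GO.H19

open Matrix Polynomial Pool.Agent.MT100 Pool.Agent.MT100G Pool.Agent.Helper78_MT
open Pool.Agent.MT100G.H19

variable {d : Type} [Fintype d] [DecidableEq d]

/-- a rotation (Cayley transform) -/
theorem exists_saut {J0 : Matrix d d ℚ} (hs : J0ᵀ = J0) (hu : IsUnit J0.det) {i0 j0 : d}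
    (hij : i0 ≠ j0) : ∃ g ∈ SAut J0, ¬ Scal g := by
  obtain ⟨J, hJdef⟩ : ∃ J : Matrix d d ℂ, J = J0.map (algebraMap ℚ ℂ) := ⟨_, rfl⟩
  have hJ : Jᵀ = J := by rw [hJdef, ← Matrix.transpose_map, hs]
  have hJu : IsUnit J.det := by
    rw [hJdef]
    have := hu.map (algebraMap ℚ ℂ)
    rwa [RingHom.map_det] at this
  obtain ⟨S, hS⟩ : ∃ S : Matrix d d ℂ, S = Matrix.single i0 j0 1 - Matrix.single j0 i0 1 :=
    ⟨_, rfl⟩
  have hSt : Sᵀ = -S := by
    rw [hS, Matrix.transpose_sub, Matrix.transpose_single, Matrix.transpose_single, neg_sub]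
  have hS0 : S ≠ 0 := by
    intro h
    have h1 := congrFun (congrFun h i0) j0
    rw [hS] at h1
    simp [Matrix.single, hij.symm] at h1
  obtain ⟨A, hA⟩ : ∃ A : Matrix d d ℂ, A = J⁻¹ * S := ⟨_, rfl⟩
  have hJA : J * A = S := by
    rw [hA, ← Matrix.mul_assoc, Matrix.mul_nonsing_inv _ hJu, Matrix.one_mul]
  have hAJ : Aᵀ * J = -S := by
    have h1 : (J * A)ᵀ = Sᵀ := by rw [hJA]
    rw [Matrix.transpose_mul, hJ, hSt] at h1
    exact h1
  -- a number which is not an eigenvalue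
  obtain ⟨μ, hμ⟩ : ∃ μ : ℂ, μ ∉ (({0} : Set ℂ) ∪ {x | A.charpoly.IsRoot x}) := by
    have hfin : (({0} : Set ℂ) ∪ {x | A.charpoly.IsRoot x}).Finite :=
      (Set.finite_singleton 0).union
        (Polynomial.finite_setOfPred_isRoot (Matrix.charpoly_monic A).ne_zero)
    exact hfin.exists_notMem
  have hμ0 : μ ≠ 0 := fun h => hμ (Or.inl h)
  obtain ⟨P, hP⟩ : ∃ P : Matrix d d ℂ, P = μ • (1 : Matrix d d ℂ) - A := ⟨_, rfl⟩
  obtain ⟨P', hP'⟩ : ∃ P' : Matrix d d ℂ, P' = μ • (1 : Matrix d d ℂ) + A := ⟨_, rfl⟩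
  have hPu : IsUnit P.det := by
    rw [isUnit_iff_ne_zero]
    intro h0
    apply hμ
    right
    show A.charpoly.eval μ = 0
    rw [Matrix.eval_charpoly, Matrix.scalar_apply, ← Matrix.smul_one_eq_diagonal, ← hP, h0]
  have c1 : P'ᵀ * J = J * P := by
    rw [hP', hP, Matrix.transpose_add, Matrix.transpose_smul, Matrix.transpose_one,
      Matrix.add_mul, Matrix.mul_sub, hAJ, hJA, Matrix.smul_mul, Matrix.one_mul, Matrix.mul_smul,
      Matrix.mul_one, sub_eq_add_neg]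
  have c2 : Pᵀ * J = J * P' := by
    rw [hP', hP, Matrix.transpose_sub, Matrix.transpose_smul, Matrix.transpose_one,
      Matrix.sub_mul, Matrix.mul_add, hAJ, hJA, Matrix.smul_mul, Matrix.one_mul, Matrix.mul_smul,
      Matrix.mul_one, sub_neg_eq_add]
  have c3 : P * P' = P' * P := by
    rw [hP, hP']
    simp only [Matrix.sub_mul, Matrix.mul_add, Matrix.add_mul, Matrix.mul_sub, Matrix.smul_mul,
      Matrix.mul_smul, Matrix.one_mul, Matrix.mul_one, smul_add, smul_sub]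
    abel
  have hdet : P'.det = P.det := by
    have h1 := congrArg Matrix.det c1
    rw [Matrix.det_mul, Matrix.det_mul, Matrix.det_transpose, mul_comm] at h1
    exact mul_left_cancel₀ hJu.ne_zero h1
  obtain ⟨g, hg⟩ : ∃ g : Matrix d d ℂ, g = P⁻¹ * P' := ⟨_, rfl⟩
  have g1 : P * g = P' := by
    rw [hg, ← Matrix.mul_assoc, Matrix.mul_nonsing_inv _ hPu, Matrix.one_mul]
  have g2 : g * P = P' := by
    rw [hg, Matrix.mul_assoc, ← c3, ← Matrix.mul_assoc, Matrix.nonsing_inv_mul _ hPu,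
      Matrix.one_mul]
  have hK : gᵀ * J * g = J := by
    have e1 : Pᵀ * (gᵀ * J * g) * P = Pᵀ * J * P := by
      have h1 : Pᵀ * gᵀ = P'ᵀ := by rw [← Matrix.transpose_mul, g2]
      calc Pᵀ * (gᵀ * J * g) * P = (Pᵀ * gᵀ) * J * (g * P) := by
            simp only [Matrix.mul_assoc]
        _ = J * P * P' := by rw [h1, g2, c1]
        _ = J * (P' * P) := by rw [Matrix.mul_assoc, c3]
        _ = Pᵀ * J * P := by rw [c2, Matrix.mul_assoc]
    have hPtu : IsUnit (Pᵀ).det := by rw [Matrix.det_transpose]; exact hPu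
    have e2 : (Pᵀ)⁻¹ * (Pᵀ * (gᵀ * J * g) * P) * P⁻¹ = (Pᵀ)⁻¹ * (Pᵀ * J * P) * P⁻¹ := by rw [e1]
    have e3 : ∀ M : Matrix d d ℂ, (Pᵀ)⁻¹ * (Pᵀ * M * P) * P⁻¹ = M := by
      intro M
      rw [← Matrix.mul_assoc, ← Matrix.mul_assoc, Matrix.nonsing_inv_mul _ hPtu, Matrix.one_mul,
        Matrix.mul_assoc, Matrix.mul_nonsing_inv _ hPu, Matrix.mul_one]
    rw [e3, e3] at e2
    exact e2
  refine ⟨g, ⟨?_, ?_⟩, ?_⟩
  · show gᵀ * J0.map (algebraMap ℚ ℂ) * g = J0.map (algebraMap ℚ ℂ)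
    rw [← hJdef]
    exact hK
  · have h1 := congrArg Matrix.det g1
    rw [Matrix.det_mul, hdet] at h1
    exact mul_left_cancel₀ hPu.ne_zero (by rw [h1, mul_one])
  · rintro ⟨c, hc⟩
    have h1 : (1 + c) • A = ((c - 1) * μ) • (1 : Matrix d d ℂ) := by
      have h2 := g1
      rw [hc, Matrix.mul_smul, Matrix.mul_one, hP, hP'] at h2
      have h3 : c • (μ • (1 : Matrix d d ℂ) - A) - (μ • (1 : Matrix d d ℂ) + A) = 0 :=
        sub_eq_zero.mpr h2
      have h4 : ((c - 1) * μ) • (1 : Matrix d d ℂ) - (1 + c) • A = 0 := by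
        rw [← h3, smul_sub, smul_smul, sub_mul, sub_smul, one_mul, add_smul, one_smul]
        abel
      exact (sub_eq_zero.mp h4).symm
    by_cases hc1 : 1 + c = 0
    · rw [hc1, zero_smul] at h1
      have h2 : (c - 1) * μ = 0 := by
        have h3 := congrFun (congrFun h1 i0) i0
        rw [Matrix.zero_apply, Matrix.smul_apply, Matrix.one_apply_eq, smul_eq_mul, mul_one] at h3
        exact h3.symm
      rcases mul_eq_zero.mp h2 with h3 | h3
      · have h4 : (2 : ℂ) = 0 := by linear_combination hc1 - h3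
        exact two_ne_zero h4
      · exact hμ0 h3
    · have h2 : A = ((1 + c)⁻¹ * ((c - 1) * μ)) • (1 : Matrix d d ℂ) := by
        rw [mul_smul, ← h1, smul_smul, inv_mul_cancel₀ hc1, one_smul]
      obtain ⟨a, ha⟩ : ∃ a : ℂ, A = a • (1 : Matrix d d ℂ) := ⟨_, h2⟩
      have h3 : J * A = a • J := by rw [ha, Matrix.mul_smul, Matrix.mul_one]
      have h4 : Aᵀ * J = a • J := by
        rw [ha, Matrix.transpose_smul, Matrix.transpose_one, Matrix.smul_mul, Matrix.one_mul]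
      rw [hJA] at h3
      rw [hAJ] at h4
      apply hS0
      have h5 : S = -S := by rw [h4]; exact h3
      have h6 : (2 : ℂ) • S = 0 := by
        rw [two_smul]
        nth_rewrite 2 [h5]
        exact add_neg_cancel S
      exact (smul_eq_zero.mp h6).resolve_left two_ne_zero

theorem exists_nonscal (F : FamO d) {i0 j0 : d} (hij0 : i0 ≠ j0) :
    ∃ g ∈ mon F.H F.N F.q F.B Set.univ, ¬ Scal g := by
  by_contra hcon
  push Not at hcon
  obtain ⟨g, hg, hns⟩ := exists_saut F.symm F.unit hij0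
  apply hns
  have h1 : ∀ i j, i ≠ j → g i j = 0 := fun i j hij => by
    have h := F.big (MvPolynomial.X (i, j)) (fun g' hg' => by
      obtain ⟨c, hc⟩ := hcon g' hg'
      rw [pev_X, hc, Matrix.smul_apply, Matrix.one_apply_ne hij, smul_zero]) g hg
    rwa [pev_X] at h
  have h2 : ∀ i j, g i i = g j j := fun i j => by
    have h := F.big (MvPolynomial.X (i, i) - MvPolynomial.X (j, j)) (fun g' hg' => by
      obtain ⟨c, hc⟩ := hcon g' hg'
      rw [map_sub, pev_X, pev_X, hc, Matrix.smul_apply, Matrix.smul_apply, Matrix.one_apply_eq,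
        Matrix.one_apply_eq, sub_self]) g hg
    rw [map_sub, pev_X, pev_X] at h
    exact sub_eq_zero.mp h
  refine ⟨g i0 i0, ?_⟩
  ext i j
  rw [Matrix.smul_apply]
  by_cases hij : i = j
  · subst hij
    rw [Matrix.one_apply_eq, smul_eq_mul, mul_one]
    exact h2 i i0
  · rw [Matrix.one_apply_ne hij, smul_zero]
    exact h1 i j hij

theorem hpl (huni : UniStmt) (hbas : BasStmt) (hmon : MT100GO.MonStmt) : MT100GO.HplStmt := by
  intro d _ _ F hd
  obtain ⟨R, -, hsol, -⟩ := hbas d F.H F.K F.N F.q F.B F.sys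
  obtain ⟨i0, j0, hij0⟩ : ∃ i0 j0 : d, i0 ≠ j0 :=
    Fintype.exists_pair_of_one_lt_card (by omega)
  have ha : ∀ m : ℝ, R ≤ m → ∀ g ∈ mon F.H F.N F.q F.B {w | m < w.re}, Scal g := by
    intro m hm g hg
    obtain ⟨c, hc, hc'⟩ := (Filter.Eventually.and hg (Filter.eventually_gt_atTop (R + 1))).exists
    have h1 := chain_eq huni (U := {w : ℂ | m < w.re}) (fun c ρ hρ hb =>
      hsol c ρ hρ (hb.trans fun w hw => lt_of_le_of_lt hm (show m < w.re from hw))) hc (c : ℂ)
      (Metric.mem_ball_self one_pos)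
    have h2 := (hsol c 1 one_pos (ball_half hc')).det c (Metric.mem_ball_self one_pos)
    have h3 : (YH F.H F.N (c : ℂ))⁻¹ * (YH F.H F.N (c : ℂ) * g) =
        (YH F.H F.N (c : ℂ))⁻¹ * YH F.H F.N (c : ℂ) := congrArg _ h1
    rw [← Matrix.mul_assoc, Matrix.nonsing_inv_mul _ h2, Matrix.one_mul] at h3
    exact ⟨1, by rw [one_smul, h3]⟩
  obtain ⟨g, hg, hns⟩ := exists_nonscal F hij0
  have hgu : IsUnit g.det := aut_det F.unit ((hmon d F).1 hg)
  obtain ⟨c0, hc0, hc0'⟩ := (Filter.Eventually.and hg (Filter.eventually_gt_atTop (R + 1))).exists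
  obtain ⟨m', hm'⟩ := exists_half hc0
  have hgm : g ∈ mon F.H F.N F.q F.B {w | min m' R < w.re} := by
    show ∀ᶠ c : ℝ in Filter.atTop, _
    filter_upwards [Filter.eventually_gt_atTop (R + 1)] with c hc
    have hsub : {w : ℂ | R < w.re} ⊆ {w | min m' R < w.re} := by
      intro w hw
      have hw' : R < w.re := hw
      exact lt_of_le_of_lt (min_le_right m' R) hw'
    have e1 := Cnt.mono hsub (conn hsol (g := 1) (by rw [Matrix.det_one]; exact isUnit_one) c c0
      hc hc0')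
    have e2 := Cnt.mono hsub (conn hsol hgu c0 c hc0' hc)
    have e3 : Cnt F.q F.B {w | min m' R < w.re} ((c0 : ℂ), 1, YH F.H F.N)
        ((c0 : ℂ), 1, fun w => YH F.H F.N w * g) :=
      Cnt.mono (fun w hw => lt_of_le_of_lt (min_le_left m' R) (show m' < w.re from hw)) hm'
    simp only [Matrix.mul_one] at e1
    exact (e1.trans e3).trans e2
  obtain ⟨M, hM⟩ : ∃ M : Set ℝ, M = {m | ∃ g ∈ mon F.H F.N F.q F.B {w | m < w.re}, ¬ Scal g} :=
    ⟨_, rfl⟩
  have hne : M.Nonempty := ⟨min m' R, by rw [hM]; exact ⟨g, hgm, hns⟩⟩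
  have hbd : BddAbove M := ⟨R, fun m hm => by
    rw [hM] at hm
    obtain ⟨g', hg', hns'⟩ := hm
    by_contra hlt
    push Not at hlt
    exact hns' (ha m hlt.le g' hg')⟩
  obtain ⟨m1, hm1, hlt⟩ := exists_lt_of_lt_csSup hne (show sSup M - 1 < sSup M by linarith)
  refine ⟨m1, ?_, fun g' hg' => ?_⟩
  · rw [hM] at hm1
    exact hm1
  · by_contra hns'
    have h1 : m1 + 1 ∈ M := by rw [hM]; exact ⟨g', hg', hns'⟩
    have h2 := le_csSup hbd h1
    linarith

end Pool.Agent.MT100GO.H19
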