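import Pool.Agent.MT100GO.Stmts
import Pool.Agent.Helper98_MTG.Prs

/-! Module PRS of MT100GO: relations persist under the product of the special orthogonal groups. -/

set_option autoImplicit false
set_option linter.unusedSectionVars false

namespace Pool.Agent.MT100GO.H19

open Matrix MvPolynomial Pool.Agent.MT100 Pool.Agent.Helper78_MT Pool.Agent.MT100G
open Pool.Agent.MT100G.H98

variable {d : Type} [Fintype d] [DecidableEq d]

theorem det_inv_one {g : Matrix d d ℂ} (h : g.det = 1) : (g⁻¹).det = 1 := by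
  rw [Matrix.det_nonsing_inv, h, Ring.inverse_one]

theorem SAut.one {J0 : Matrix d d ℚ} : (1 : Matrix d d ℂ) ∈ SAut J0 :=
  ⟨Aut.one, Matrix.det_one⟩

theorem SAut.mul {J0 : Matrix d d ℚ} {g g' : Matrix d d ℂ} (hg : g ∈ SAut J0)
    (hg' : g' ∈ SAut J0) : g * g' ∈ SAut J0 :=
  ⟨Aut.mul hg.1 hg'.1, by rw [Matrix.det_mul, hg.2, hg'.2, mul_one]⟩

theorem SAut.inv {J0 : Matrix d d ℚ} (hJ : IsUnit J0.det) {g : Matrix d d ℂ}
    (hg : g ∈ SAut J0) : g⁻¹ ∈ SAut J0 :=
  ⟨Aut.inv hJ hg.1, det_inv_one hg.2⟩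

/-- the kernel group at `j` is Zariski dense in the special orthogonal group -/
theorem dense_ker (hM : MT100GO.MonStmt) (h1 : MT100GO.Tu1Stmt) (h2 : MT100GO.Tu2Stmt)
    (h3 : MT100GO.Tu3Stmt) (hN : MT100GO.NrmStmt)
    (hC : MT100GO.ComStmt) (F : FamO d) (hd : 5 ≤ Fintype.card d) {ι : Type} [Fintype ι]
    (κ : ι → ℕ) (j : ι) (f : MvPolynomial (d × d) ℂ)
    (hf : ∀ t ∈ tup F.H F.N F.q F.B κ, t.2 = 0 → (∀ i, κ i < κ j → t.1 i = 1) →
      (∀ i, (t.1 i).det = 1) → pev (t.1 j) f = 0) : ∀ g ∈ SAut F.J0, pev g f = 0 := by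
  obtain ⟨hMA, hM1, hMm, hMi⟩ := hM d F
  obtain ⟨hT0, hT1, hTm, hTi⟩ := h1 d F ι κ
  have hu : ∀ t ∈ tup F.H F.N F.q F.B κ, ∀ i, IsUnit (t.1 i).det := fun t ht i =>
    Aut.det_unit F.unit (hMA (hT0 t ht i))
  let Γ : Set (Matrix d d ℂ) := {a | ∃ t ∈ tup F.H F.N F.q F.B κ, t.2 = 0 ∧
    (∀ i, κ i < κ j → t.1 i = 1) ∧ (∀ i, (t.1 i).det = 1) ∧ t.1 j = a}
  refine hN d F.J0 F.symm F.unit hd (mon F.H F.N F.q F.B Set.univ) Γ F.big hMA ?_ ?_ ?_ ?_ ?_ ?_
    f ?_
  · rintro a ⟨t, ht, -, -, hdt, rfl⟩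
    exact ⟨hMA (hT0 t ht j), hdt j⟩
  · exact ⟨_, hT1, rfl, fun _ _ => rfl, fun _ => Matrix.det_one, rfl⟩
  · rintro a ⟨t, ht, ht0, ht1, hdt, rfl⟩ b ⟨s, hs, hs0, hs1, hds, rfl⟩
    refine ⟨_, hTm t ht s hs, ?_, ?_, ?_, rfl⟩
    · simp [ht0, hs0]
    · intro i hi
      simp [ht1 i hi, hs1 i hi]
    · intro i
      show (t.1 i * s.1 i).det = 1
      rw [Matrix.det_mul, hdt, hds, mul_one]
  · rintro a ⟨t, ht, ht0, ht1, hdt, rfl⟩
    refine ⟨_, hTi t ht, ?_, ?_, ?_, rfl⟩
    · simp [ht0]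
    · intro i hi
      simp [ht1 i hi]
    · intro i
      exact det_inv_one (hdt i)
  · rintro m hm a ⟨t, ht, ht0, ht1, hdt, rfl⟩
    obtain ⟨s, hs, rfl⟩ := h2 d F ι κ j m hm
    have hA := hTm s hs t ht
    have hB := hTm _ hA _ (hTi s hs)
    refine ⟨_, hB, ?_, ?_, ?_, rfl⟩
    · simp [ht0]
    · intro i hi
      have := Matrix.mul_nonsing_inv _ (hu s hs i)
      simp [ht1 i hi, this]
    · intro i
      show (s.1 i * t.1 i * (s.1 i)⁻¹).det = 1
      have h5 : (s.1 i).det * ((s.1 i)⁻¹).det = 1 := by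
        rw [← Matrix.det_mul, Matrix.mul_nonsing_inv _ (hu s hs i), Matrix.det_one]
      rw [Matrix.det_mul, Matrix.det_mul, hdt, mul_one, h5]
  · obtain ⟨t, ht, htj, hti⟩ := h3 d F (by omega) ι κ j
    obtain ⟨m, hm, hnm⟩ := hC d F.J0 F.symm F.unit hd (mon F.H F.N F.q F.B Set.univ) F.big hMA
      (t.1 j) (hMA (hT0 t ht j)) htj
    obtain ⟨s, hs, rfl⟩ := h2 d F ι κ j m hm
    have hA := hTm t ht s hs
    have hB := hTm _ hA _ (hTi t ht)
    have hD := hTm _ hB _ (hTi s hs)
    refine ⟨_, ⟨_, hD, ?_, ?_, ?_, rfl⟩, hnm⟩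
    · simp
    · intro i hi
      obtain ⟨c, hc⟩ := hti i hi
      have hut := hu t ht i
      have hus := hu s hs i
      have hcomm : t.1 i * s.1 i = s.1 i * t.1 i := by rw [hc]; simp
      show t.1 i * s.1 i * (t.1 i)⁻¹ * (s.1 i)⁻¹ = 1
      rw [hcomm, Matrix.mul_assoc (s.1 i), Matrix.mul_nonsing_inv _ hut, Matrix.mul_one,
        Matrix.mul_nonsing_inv _ hus]
    · intro i
      show (t.1 i * s.1 i * (t.1 i)⁻¹ * (s.1 i)⁻¹).det = 1
      have h5 : (s.1 i).det * ((s.1 i)⁻¹).det = 1 := by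
        rw [← Matrix.det_mul, Matrix.mul_nonsing_inv _ (hu s hs i), Matrix.det_one]
      have h6 : (t.1 i).det * ((t.1 i)⁻¹).det = 1 := by
        rw [← Matrix.det_mul, Matrix.mul_nonsing_inv _ (hu t ht i), Matrix.det_one]
      rw [Matrix.det_mul, Matrix.det_mul, Matrix.det_mul]
      linear_combination ((t.1 i).det * ((t.1 i)⁻¹).det) * h5 + h6
  · rintro a ⟨t, ht, ht0, ht1, hdt, rfl⟩
    exact hf t ht ht0 ht1 hdt

theorem prs (hM : MT100GO.MonStmt) (h1 : MT100GO.Tu1Stmt) (h2 : MT100GO.Tu2Stmt)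
    (h3 : MT100GO.Tu3Stmt) (hN : MT100GO.NrmStmt) (hC : MT100GO.ComStmt)
    (hP : MT100GO.PrmStmt) : MT100GO.PrsStmt := by
  intro d _ _ F hd ι _ _ κ hκ
  obtain ⟨hMA, -, -, -⟩ := hM d F
  obtain ⟨hT0, hT1, hTm, hTi⟩ := h1 d F ι κ
  obtain ⟨R0, hR0⟩ := hP d F ι κ
  refine ⟨R0, fun Φ hΦ => ?_⟩
  have key : ∀ n : ℕ, ∀ s : Finset ι, s.card = n → (∀ i ∈ s, ∀ i', κ i < κ i' → i' ∈ s) →
      ∀ w : ℝ, R0 < w → ∀ g : ι → Matrix d d ℂ, (∀ i, g i ∈ SAut F.J0) → (∀ i, i ∉ s → g i = 1) →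
        MvPolynomial.eval (vr (w : ℂ) (Complex.log w)
          fun i => YH F.H F.N ((w : ℂ) - κ i) * g i) Φ = 0 := by
    intro n
    induction n with
    | zero =>
      intro s hs hup w hw g hg hg1
      have hs0 : s = ∅ := Finset.card_eq_zero.mp hs
      have hgg : g = fun _ => 1 := by
        funext i
        exact hg1 i (by simp [hs0])
      subst hgg
      have := hR0 Φ hΦ _ hT1 w hw
      simpa using this
    | succ n ih =>
      intro s hs hup w hw g hg hg1
      have hne : s.Nonempty := by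
        rw [← Finset.card_pos]; omega
      obtain ⟨j, hj, hmin⟩ := Finset.exists_min_image s κ hne
      have hcard : (s.erase j).card = n := by
        rw [Finset.card_erase_of_mem hj, hs]; rfl
      have hup' : ∀ i ∈ s.erase j, ∀ i', κ i < κ i' → i' ∈ s.erase j := by
        intro i hi i' hii'
        rw [Finset.mem_erase] at hi ⊢
        refine ⟨?_, hup i hi.2 i' hii'⟩
        rintro rfl
        exact absurd (hmin i hi.2) (not_le.mpr hii')
      have hlow : ∀ i, i ∉ s → κ i < κ j := by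
        intro i hi
        rcases lt_trichotomy (κ i) (κ j) with h | h | h
        · exact h
        · exact absurd (hκ h ▸ hj) hi
        · exact absurd (hup j hj i h) hi
      -- the polynomial in the entries of the matrix at `j`
      let Y : ι → Matrix d d ℂ := fun i => YH F.H F.N ((w : ℂ) - κ i) * g i
      have hpoly : ∀ T ∈ SAut F.J0,
          pev T (bind₁ (sbJ j (w : ℂ) (Complex.log w) (YH F.H F.N ((w : ℂ) - κ j)) Y) Φ) = 0 := by
        refine dense_ker hM h1 h2 h3 hN hC F hd κ j _ ?_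
        intro t ht ht0 ht1 hdt
        rw [pev_sbJ]
        -- the matrices for the induction hypothesis
        let g' : ι → Matrix d d ℂ := fun i => if i = j then 1 else (t.1 i)⁻¹ * g i
        have hg' : ∀ i, g' i ∈ SAut F.J0 := by
          intro i
          by_cases hij : i = j
          · simp only [g', hij, if_true]; exact SAut.one
          · simp only [g', hij, if_false]
            exact SAut.mul (SAut.inv F.unit ⟨hMA (hT0 t ht i), hdt i⟩) (hg i)
        have hg'1 : ∀ i, i ∉ s.erase j → g' i = 1 := by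
          intro i hi
          by_cases hij : i = j
          · simp [g', hij]
          · have his : i ∉ s := fun h => hi (Finset.mem_erase.mpr ⟨hij, h⟩)
            simp [g', hij, ht1 i (hlow i his), hg1 i his]
        have hih : ∀ w : ℝ, R0 < w → MvPolynomial.eval (vr (w : ℂ) (Complex.log w)
            fun i => YH F.H F.N ((w : ℂ) - κ i)) (bind₁ (sbG g') Φ) = 0 := by
          intro w' hw'
          rw [eval_sbG]
          exact ih (s.erase j) hcard hup' w' hw' g' hg' hg'1
        have hev : ∀ᶠ w : ℝ in Filter.atTop, MvPolynomial.eval (vr (w : ℂ) (Complex.log w)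
            fun i => YH F.H F.N ((w : ℂ) - κ i)) (bind₁ (sbG g') Φ) = 0 :=
          (Filter.eventually_gt_atTop R0).mono hih
        have hres := hR0 _ hev t ht w hw
        rw [eval_sbG, ht0] at hres
        have hY : Function.update Y j (YH F.H F.N ((w : ℂ) - κ j) * t.1 j) =
            fun i => YH F.H F.N ((w : ℂ) - κ i) * t.1 i * g' i := by
          funext i
          by_cases hij : i = j
          · subst hij
            simp [g']
          · rw [Function.update_of_ne hij]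
            have hut : IsUnit (t.1 i).det := Aut.det_unit F.unit (hMA (hT0 t ht i))
            simp only [g', hij, if_false, Y]
            rw [Matrix.mul_assoc, ← Matrix.mul_assoc (t.1 i), Matrix.mul_nonsing_inv _ hut,
              Matrix.one_mul]
        rw [hY]
        simpa using hres
      have hfin := hpoly (g j) (hg j)
      rw [pev_sbJ] at hfin
      have hY : Function.update Y j (YH F.H F.N ((w : ℂ) - κ j) * g j) = Y := by
        funext i
        by_cases hij : i = j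
        · subst hij
          simp [Y]
        · rw [Function.update_of_ne hij]
      rw [hY] at hfin
      exact hfin
  intro w hw g hg
  exact key _ Finset.univ rfl (fun _ _ _ _ => Finset.mem_univ _) w hw g hg
    (fun i hi => absurd (Finset.mem_univ i) hi)

end Pool.Agent.MT100GO.H19
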